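import Mathlib

/-!
# The Jacobian conjecture fails in dimension three

The polynomial map
`P (x, y, z) = (x - 3x²y - 2x³z, y + 24xy² + 6xz + 36x²y³ + 24x²yz + 24x³y²z,
  z + 4y² + 6xyz + 14xy³ + 12x²y²z + 12x²y⁴ + 8x³y³z)`
has Jacobian determinant `1` (over every commutative ring) and takes the value `(1/2, -4, 0)` at the
three points `(-1/4, 2, 36)`, `(1/12, -4, -288)`, `(1/6, -4, 0)`.

Geometry: with `w = y + 1 / (2 x)` the cubic polynomial with coefficients given by `P` has the simple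
root `w`; affine three-space is the space of the binary cubic forms with one coefficient `-1` and a
marked simple root.
-/

set_option autoImplicit false
set_option maxRecDepth 100000

open MvPolynomial

namespace Pool.Agent.N904.JC3

variable (R : Type*) [CommRing R]

/-- first component -/
noncomputable def P0 : MvPolynomial (Fin 3) R := X 0 - 3 * X 0 ^ 2 * X 1 - 2 * X 0 ^ 3 * X 2

/-- second component -/
noncomputable def P1 : MvPolynomial (Fin 3) R :=
  X 1 + 24 * X 0 * X 1 ^ 2 + 6 * X 0 * X 2 + 36 * X 0 ^ 2 * X 1 ^ 3 + 24 * X 0 ^ 2 * X 1 * X 2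
    + 24 * X 0 ^ 3 * X 1 ^ 2 * X 2

/-- third component -/
noncomputable def P2 : MvPolynomial (Fin 3) R :=
  X 2 + 4 * X 1 ^ 2 + 6 * X 0 * X 1 * X 2 + 14 * X 0 * X 1 ^ 3 + 12 * X 0 ^ 2 * X 1 ^ 2 * X 2
    + 12 * X 0 ^ 2 * X 1 ^ 4 + 8 * X 0 ^ 3 * X 1 ^ 3 * X 2

/-- The map. -/
noncomputable def P : Fin 3 → MvPolynomial (Fin 3) R := ![P0 R, P1 R, P2 R]

theorem pderiv_num (i : Fin 3) (n : ℕ) :
    pderiv i ((n : MvPolynomial (Fin 3) R)) = 0 := Derivation.map_natCast _ _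

theorem n2 (i : Fin 3) : pderiv i (2 : MvPolynomial (Fin 3) R) = 0 := by
  rw [← map_ofNat (C : R →+* MvPolynomial (Fin 3) R) 2, pderiv_C]
theorem n3 (i : Fin 3) : pderiv i (3 : MvPolynomial (Fin 3) R) = 0 := by
  rw [← map_ofNat (C : R →+* MvPolynomial (Fin 3) R) 3, pderiv_C]
theorem n4 (i : Fin 3) : pderiv i (4 : MvPolynomial (Fin 3) R) = 0 := by
  rw [← map_ofNat (C : R →+* MvPolynomial (Fin 3) R) 4, pderiv_C]
theorem n6 (i : Fin 3) : pderiv i (6 : MvPolynomial (Fin 3) R) = 0 := by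
  rw [← map_ofNat (C : R →+* MvPolynomial (Fin 3) R) 6, pderiv_C]
theorem n8 (i : Fin 3) : pderiv i (8 : MvPolynomial (Fin 3) R) = 0 := by
  rw [← map_ofNat (C : R →+* MvPolynomial (Fin 3) R) 8, pderiv_C]
theorem n12 (i : Fin 3) : pderiv i (12 : MvPolynomial (Fin 3) R) = 0 := by
  rw [← map_ofNat (C : R →+* MvPolynomial (Fin 3) R) 12, pderiv_C]
theorem n14 (i : Fin 3) : pderiv i (14 : MvPolynomial (Fin 3) R) = 0 := by
  rw [← map_ofNat (C : R →+* MvPolynomial (Fin 3) R) 14, pderiv_C]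
theorem n24 (i : Fin 3) : pderiv i (24 : MvPolynomial (Fin 3) R) = 0 := by
  rw [← map_ofNat (C : R →+* MvPolynomial (Fin 3) R) 24, pderiv_C]
theorem n36 (i : Fin 3) : pderiv i (36 : MvPolynomial (Fin 3) R) = 0 := by
  rw [← map_ofNat (C : R →+* MvPolynomial (Fin 3) R) 36, pderiv_C]

theorem x00 : pderiv (0 : Fin 3) (X 0 : MvPolynomial (Fin 3) R) = 1 := pderiv_X_self 0
theorem x11 : pderiv (1 : Fin 3) (X 1 : MvPolynomial (Fin 3) R) = 1 := pderiv_X_self 1
theorem x22 : pderiv (2 : Fin 3) (X 2 : MvPolynomial (Fin 3) R) = 1 := pderiv_X_self 2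
theorem x01 : pderiv (0 : Fin 3) (X 1 : MvPolynomial (Fin 3) R) = 0 := pderiv_X_of_ne (by decide)
theorem x02 : pderiv (0 : Fin 3) (X 2 : MvPolynomial (Fin 3) R) = 0 := pderiv_X_of_ne (by decide)
theorem x10 : pderiv (1 : Fin 3) (X 0 : MvPolynomial (Fin 3) R) = 0 := pderiv_X_of_ne (by decide)
theorem x12 : pderiv (1 : Fin 3) (X 2 : MvPolynomial (Fin 3) R) = 0 := pderiv_X_of_ne (by decide)
theorem x20 : pderiv (2 : Fin 3) (X 0 : MvPolynomial (Fin 3) R) = 0 := pderiv_X_of_ne (by decide)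
theorem x21 : pderiv (2 : Fin 3) (X 1 : MvPolynomial (Fin 3) R) = 0 := pderiv_X_of_ne (by decide)

/-- The Jacobian determinant is `1`. -/
theorem det_jac : (Matrix.of fun i j : Fin 3 => pderiv j (P R i)).det = 1 := by
  rw [Matrix.det_fin_three]
  simp only [Matrix.of_apply]
  have e0 : P R 0 = P0 R := rfl
  have e1 : P R 1 = P1 R := rfl
  have e2 : P R 2 = P2 R := rfl
  rw [e0, e1, e2]
  simp only [P0, P1, P2, map_add, map_sub, Derivation.leibniz, Derivation.leibniz_pow, x00, x01,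
    x02, x10, x11, x12, x20, x21, x22, n2, n3, n4, n6, n8, n12, n14, n24, n36, smul_eq_mul,
    nsmul_eq_mul, mul_one, mul_zero, add_zero, zero_add, smul_zero, sub_zero]
  push_cast
  ring

/-- Three points with the same image. -/
theorem collision (i : Fin 3) :
    eval ![-1/4, 2, 36] (P ℚ i) = ![1/2, -4, 0] i ∧ eval ![1/12, -4, -288] (P ℚ i) = ![1/2, -4, 0] i ∧
      eval ![1/6, -4, 0] (P ℚ i) = ![1/2, -4, 0] i := by
  fin_cases i <;> simp [P, P0, P1, P2] <;> norm_num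

end Pool.Agent.N904.JC3

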