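import Mathlib

/-! Derivatives of polynomial maps and complex eigenvalues of their Jacobian matrices. -/

set_option autoImplicit false

open MvPolynomial

namespace Pool.Agent.N904.PD

variable {n : ℕ}

theorem hasFDerivAt_eval (q : MvPolynomial (Fin n) ℝ) (v : Fin n → ℝ) :
    HasFDerivAt (fun v => eval v q)
      (∑ j, (eval v (pderiv j q)) • (ContinuousLinearMap.proj j : (Fin n → ℝ) →L[ℝ] ℝ)) v := by
  induction q using MvPolynomial.induction_on with
  | C a => simpa using hasFDerivAt_const a v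
  | add p q hp hq =>
    simp only [map_add]
    refine (hp.add hq).congr_fderiv ?_
    ext h
    simp [add_mul, Finset.sum_add_distrib]
  | mul_X p i hp =>
    simp only [map_mul, eval_X]
    refine (hp.mul (hasFDerivAt_apply i v)).congr_fderiv ?_
    ext h
    have : ∀ j, eval v (pderiv j (p * X i)) * h j
        = eval v p * (if j = i then h j else 0) + v i * (eval v (pderiv j p) * h j) := by
      intro j
      rw [Derivation.leibniz]
      by_cases hj : j = i
      · subst hj; simp [pderiv_X_self]; ring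
      · rw [pderiv_X_of_ne (Ne.symm hj)]; simp [hj]; ring
    simp only [FunLike.coe_add, FunLike.coe_smul, Pi.add_apply,
      Pi.smul_apply, ContinuousLinearMap.proj_apply, smul_eq_mul, FunLike.coe_sum,
      Finset.sum_apply, this, Finset.sum_add_distrib, ← Finset.mul_sum, Finset.sum_ite_eq',
      Finset.mem_univ, if_true]

/-- The polynomial map with the components `p i`. -/
noncomputable def pmap (p : Fin n → MvPolynomial (Fin n) ℝ) (v : Fin n → ℝ) : Fin n → ℝ :=
  fun i => eval v (p i)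

theorem hasFDerivAt_pmap (p : Fin n → MvPolynomial (Fin n) ℝ) (v : Fin n → ℝ) :
    HasFDerivAt (pmap p) (ContinuousLinearMap.pi fun i =>
      ∑ j, (eval v (pderiv j (p i))) • (ContinuousLinearMap.proj j : (Fin n → ℝ) →L[ℝ] ℝ)) v := by
  rw [hasFDerivAt_pi]
  intro i
  exact hasFDerivAt_eval (p i) v

theorem contDiff_eval (q : MvPolynomial (Fin n) ℝ) :
    ContDiff ℝ 1 (fun v : Fin n → ℝ => eval v q) := by
  induction q using MvPolynomial.induction_on with
  | C a => simpa using (contDiff_const : ContDiff ℝ 1 fun _ : Fin n → ℝ => a)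
  | add p q hp hq => simp only [map_add]; exact hp.add hq
  | mul_X p i hp => simp only [map_mul, eval_X]; exact hp.mul (contDiff_apply ℝ ℝ i)

theorem contDiff_pmap (p : Fin n → MvPolynomial (Fin n) ℝ) : ContDiff ℝ 1 (pmap p) :=
  contDiff_pi.mpr fun i => contDiff_eval (p i)

theorem toMatrix_fderiv (p : Fin n → MvPolynomial (Fin n) ℝ) (v : Fin n → ℝ) :
    LinearMap.toMatrix' ((fderiv ℝ (pmap p) v : (Fin n → ℝ) →L[ℝ] (Fin n → ℝ)) :
      (Fin n → ℝ) →ₗ[ℝ] (Fin n → ℝ)) = Matrix.of fun i j => eval v (pderiv j (p i)) := by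
  rw [(hasFDerivAt_pmap p v).fderiv]
  ext i j
  rw [LinearMap.toMatrix'_apply]
  simp [Pi.single_apply]

/-- The derivative of the polynomial `q` at the complex point `v` in the direction `w`. -/
noncomputable def D (v w : Fin n → ℂ) (q : MvPolynomial (Fin n) ℝ) : ℂ :=
  ∑ j, aeval v (pderiv j q) * w j

variable (v w : Fin n → ℂ)

theorem D_add (p q : MvPolynomial (Fin n) ℝ) : D v w (p + q) = D v w p + D v w q := by
  simp [D, add_mul, Finset.sum_add_distrib]

theorem D_sub (p q : MvPolynomial (Fin n) ℝ) : D v w (p - q) = D v w p - D v w q := by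
  simp [D, sub_mul, Finset.sum_sub_distrib]

theorem D_mul (p q : MvPolynomial (Fin n) ℝ) :
    D v w (p * q) = aeval v p * D v w q + aeval v q * D v w p := by
  simp only [D, Derivation.leibniz, smul_eq_mul, map_add, map_mul, add_mul,
    Finset.sum_add_distrib, Finset.mul_sum]
  congr 1 <;> exact Finset.sum_congr rfl fun j _ => by ring

theorem D_pow (p : MvPolynomial (Fin n) ℝ) (k : ℕ) :
    D v w (p ^ k) = k * aeval v p ^ (k - 1) * D v w p := by
  simp only [D, Derivation.leibniz_pow, smul_eq_mul, nsmul_eq_mul, map_mul, map_pow, map_natCast,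
    Finset.mul_sum]
  exact Finset.sum_congr rfl fun j _ => by ring

theorem D_X (i : Fin n) : D v w (X i) = w i := by
  simp only [D]
  rw [Finset.sum_eq_single i]
  · simp
  · intro j _ hj
    rw [pderiv_X_of_ne (Ne.symm hj)]; simp
  · simp

theorem D_C (a : ℝ) : D v w (C a : MvPolynomial (Fin n) ℝ) = 0 := by
  simp [D]

theorem D_n1 : D v w (1 : MvPolynomial (Fin n) ℝ) = 0 := by
  rw [← C_1, D_C]
theorem D_n2 : D v w (2 : MvPolynomial (Fin n) ℝ) = 0 := by
  rw [← map_ofNat (C : ℝ →+* MvPolynomial (Fin n) ℝ) 2, D_C]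
theorem D_n3 : D v w (3 : MvPolynomial (Fin n) ℝ) = 0 := by
  rw [← map_ofNat (C : ℝ →+* MvPolynomial (Fin n) ℝ) 3, D_C]
theorem D_n4 : D v w (4 : MvPolynomial (Fin n) ℝ) = 0 := by
  rw [← map_ofNat (C : ℝ →+* MvPolynomial (Fin n) ℝ) 4, D_C]
theorem D_n5 : D v w (5 : MvPolynomial (Fin n) ℝ) = 0 := by
  rw [← map_ofNat (C : ℝ →+* MvPolynomial (Fin n) ℝ) 5, D_C]
theorem D_n6 : D v w (6 : MvPolynomial (Fin n) ℝ) = 0 := by
  rw [← map_ofNat (C : ℝ →+* MvPolynomial (Fin n) ℝ) 6, D_C]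
theorem D_n7 : D v w (7 : MvPolynomial (Fin n) ℝ) = 0 := by
  rw [← map_ofNat (C : ℝ →+* MvPolynomial (Fin n) ℝ) 7, D_C]
theorem D_n8 : D v w (8 : MvPolynomial (Fin n) ℝ) = 0 := by
  rw [← map_ofNat (C : ℝ →+* MvPolynomial (Fin n) ℝ) 8, D_C]
theorem D_n9 : D v w (9 : MvPolynomial (Fin n) ℝ) = 0 := by
  rw [← map_ofNat (C : ℝ →+* MvPolynomial (Fin n) ℝ) 9, D_C]
theorem D_n10 : D v w (10 : MvPolynomial (Fin n) ℝ) = 0 := by
  rw [← map_ofNat (C : ℝ →+* MvPolynomial (Fin n) ℝ) 10, D_C]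
theorem D_n12 : D v w (12 : MvPolynomial (Fin n) ℝ) = 0 := by
  rw [← map_ofNat (C : ℝ →+* MvPolynomial (Fin n) ℝ) 12, D_C]
theorem D_n14 : D v w (14 : MvPolynomial (Fin n) ℝ) = 0 := by
  rw [← map_ofNat (C : ℝ →+* MvPolynomial (Fin n) ℝ) 14, D_C]
theorem D_n18 : D v w (18 : MvPolynomial (Fin n) ℝ) = 0 := by
  rw [← map_ofNat (C : ℝ →+* MvPolynomial (Fin n) ℝ) 18, D_C]
theorem D_n24 : D v w (24 : MvPolynomial (Fin n) ℝ) = 0 := by
  rw [← map_ofNat (C : ℝ →+* MvPolynomial (Fin n) ℝ) 24, D_C]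
theorem D_n36 : D v w (36 : MvPolynomial (Fin n) ℝ) = 0 := by
  rw [← map_ofNat (C : ℝ →+* MvPolynomial (Fin n) ℝ) 36, D_C]
theorem D_n48 : D v w (48 : MvPolynomial (Fin n) ℝ) = 0 := by
  rw [← map_ofNat (C : ℝ →+* MvPolynomial (Fin n) ℝ) 48, D_C]
theorem D_n72 : D v w (72 : MvPolynomial (Fin n) ℝ) = 0 := by
  rw [← map_ofNat (C : ℝ →+* MvPolynomial (Fin n) ℝ) 72, D_C]

/-- A complex root of the characteristic polynomial has an eigenvector. -/
theorem exists_eigenvector (p : Fin n → MvPolynomial (Fin n) ℝ) (v : Fin n → ℝ) (z : ℂ)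
    (hz : Polynomial.aeval z (LinearMap.toMatrix'
      ((fderiv ℝ (pmap p) v : (Fin n → ℝ) →L[ℝ] (Fin n → ℝ)) :
        (Fin n → ℝ) →ₗ[ℝ] (Fin n → ℝ))).charpoly = 0) :
    ∃ w : Fin n → ℂ, w ≠ 0 ∧ ∀ i, D (fun k => (v k : ℂ)) w (p i) = z * w i := by
  rw [toMatrix_fderiv] at hz
  set M : Matrix (Fin n) (Fin n) ℝ := Matrix.of fun i j => eval v (pderiv j (p i)) with hM
  have h1 : (M.map (algebraMap ℝ ℂ)).charpoly.eval z = 0 := by
    rw [Matrix.charpoly_map, Polynomial.eval_map_algebraMap]; exact hz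
  rw [Matrix.eval_charpoly] at h1
  obtain ⟨w, hw, hw2⟩ := Matrix.exists_mulVec_eq_zero_iff.mpr h1
  refine ⟨w, hw, fun i => ?_⟩
  have h2 := congrFun hw2 i
  rw [Matrix.sub_mulVec] at h2
  simp only [Matrix.scalar_apply, Pi.sub_apply, Matrix.mulVec_diagonal, Pi.zero_apply] at h2
  have h3 : ((M.map (algebraMap ℝ ℂ)).mulVec w) i = D (fun k => (v k : ℂ)) w (p i) := by
    simp only [Matrix.mulVec, dotProduct, D, hM, Matrix.map_apply, Matrix.of_apply]
    refine Finset.sum_congr rfl fun j _ => ?_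
    congr 1
    have : (fun k => ((v k : ℝ) : ℂ)) = algebraMap ℝ ℂ ∘ v := rfl
    rw [this, MvPolynomial.aeval_algebraMap_apply]
    rfl
  rw [← h3]
  linear_combination -h2

end Pool.Agent.N904.PD
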